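import Pool.Agent.LC76.Ext

set_option autoImplicit false

namespace Pool.Agent.LC76

open Finset Pool.Agent.H624C
open scoped Classical

theorem exp_aux (x : ℝ) (h0 : 0 ≤ x) (h1 : x ≤ 1 / 2) : Real.exp (-(2 * x)) ≤ 1 - x := by
  have h2 : 1 + 2 * x ≤ Real.exp (2 * x) := by
    have := Real.add_one_le_exp (2 * x); linarith
  rw [Real.exp_neg]
  have h3 : (0 : ℝ) < 1 + 2 * x := by linarith
  calc (Real.exp (2 * x))⁻¹ ≤ (1 + 2 * x)⁻¹ := inv_anti₀ h3 h2
    _ ≤ 1 - x := by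
      rw [inv_le_iff_one_le_mul₀ h3]
      nlinarith

/-- for all large `n`, a bad stage with probability at least `γ` -/
theorem label_bad' (hgood : S_good) (hplant : S_plant) (hgadget : S_gadget) (hvisit : S_visit)
    (hcomap : S_comap) :
    ∃ γ : ℝ, 0 < γ ∧ ∃ N0 : ℕ, ∀ n ≥ N0, ∃ M : ℕ, 0 < M ∧
      γ ≤ (∑ T : Lab n M, ind (∃ t : ℕ, Bad3 (op t T))) /
        (M : ℝ) ^ Fintype.card (Sym2 (Fin n)) := by
  obtain ⟨ε, Λ, c, c', D, n0, hε, hεΛ, hc, hc', hg⟩ := hgood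
  have hΛ : 0 < Λ := hε.trans hεΛ
  set c'' : ℝ := c / 2 ^ (D + 1) with hc''
  have hc''0 : 0 < c'' := by positivity
  obtain ⟨a0, N, ha0, hQ⟩ := QQ_all hplant hgadget c'' ε (2 * Λ) hc''0 hε (by positivity) D
  set C := Fintype.card (Rt (D + 1)) with hC
  set κ : ℝ := Real.exp (-(2 * Λ * (C * 2))) with hκ
  have hκ0 : 0 < κ := Real.exp_pos _
  set a : ℝ := a0 * κ with ha'
  have ha : 0 < a := by positivity
  have haa0 : a ≤ a0 := by
    have : κ ≤ 1 := by
      rw [hκ, Real.exp_le_one_iff]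
      have : 0 ≤ 2 * Λ * ((C : ℝ) * 2) := by positivity
      linarith
    nlinarith
  obtain ⟨K1, hK1⟩ := exists_nat_ge (2 * Λ)
  obtain ⟨K2, hK2⟩ := exists_nat_ge (1 / (a0 / 8 * (a * c')))
  refine ⟨a0 / 8 * (a * c'), by positivity, n0 + N + 3 * C + K1 + K2 + 2, ?_⟩
  intro n hn
  have hC1 : 1 ≤ C := by rw [hC, card_Rt]; omega
  obtain ⟨n1, hn1⟩ : ∃ n1 : ℕ, n1 + C = n + 1 := ⟨n + 1 - C, by omega⟩
  have hn1pos : 0 < n1 := by omega
  set M := n ^ 5 with hM
  have hMpos : 0 < M := by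
    have : 0 < n := by omega
    positivity
  have hMge : M ≥ n1 ^ 5 := Nat.pow_le_pow_left (by omega) 5
  obtain ⟨v0, l, hl2, hlD, hsum⟩ := hg n1 (by omega) M hMge _ _ rfl rfl
  set t0 := ⌈ε * M / n1⌉₊ with ht0
  set t1 := ⌊Λ * M / n1⌋₊ with ht1
  have hcl : Fintype.card (Rt (l + 1)) ≤ C := by
    rw [hC, card_Rt, card_Rt]
    have h1 : l + 1 ≤ D + 1 := by omega
    have := Nat.mul_le_mul h1 (Nat.mul_le_mul_right 3 h1)
    omega
  set S : Finset (Fin n1) := univ.erase v0 with hS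
  have hcard : S.card = n1 - 1 := by
    rw [hS, card_erase_of_mem (mem_univ _), card_univ, Fintype.card_fin]
  set e : ℕ := C - Fintype.card (Rt (l + 1)) with he
  have heC : e ≤ C := by omega
  have hSe : S.card + e + Fintype.card (Rt (l + 1)) = n := by
    rw [hcard]; omega
  have hnn1 : n1 ≤ n := by omega
  have hnM : n ^ 5 ≤ M := le_rfl
  have hMR : (0 : ℝ) < M := by exact_mod_cast hMpos
  have hn1R : (0 : ℝ) < n1 := by exact_mod_cast hn1pos
  have hK1' : (K1 : ℝ) ≤ n1 := by exact_mod_cast (by omega : K1 ≤ n1)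
  have hK2' : (K2 : ℝ) ≤ n := by exact_mod_cast (by omega : K2 ≤ n)
  have hΛn : 2 * Λ ≤ n1 := hK1.trans hK1'
  have ht1R : (t1 : ℝ) ≤ Λ * M / n1 := Nat.floor_le (by positivity)
  have ht1M : 2 * t1 ≤ M := by
    have h1 : (2 * t1 : ℝ) ≤ M := by
      have h2 : Λ * M / n1 ≤ M / 2 := by
        rw [div_le_div_iff₀ hn1R (by norm_num)]
        nlinarith
      linarith
    exact_mod_cast h1
  obtain ⟨hq1, hq2⟩ := hQ l hlD n (by omega)
  -- density after adding `e` vertices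
  have hdens : c'' * ((S.card : ℝ) + e) ^ (l + 1) ≤ c * (S.card : ℝ) ^ (l + 1) := by
    have h1 : ((S.card : ℝ) + e) ≤ 2 * S.card := by
      have : S.card + e ≤ 2 * S.card := by rw [hcard]; omega
      exact_mod_cast this
    have h2 : ((S.card : ℝ) + e) ^ (l + 1) ≤ (2 * S.card) ^ (l + 1) :=
      pow_le_pow_left₀ (by positivity) h1 _
    have h3 : (2 : ℝ) ^ (l + 1) ≤ 2 ^ (D + 1) := pow_le_pow_right₀ (by norm_num) (by omega)
    calc c'' * ((S.card : ℝ) + e) ^ (l + 1) ≤ c'' * (2 * S.card) ^ (l + 1) := by gcongr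
      _ = c / 2 ^ (D + 1) * (2 ^ (l + 1) * (S.card : ℝ) ^ (l + 1)) := by rw [mul_pow]
      _ ≤ c / 2 ^ (D + 1) * (2 ^ (D + 1) * (S.card : ℝ) ^ (l + 1)) := by gcongr
      _ = c * (S.card : ℝ) ^ (l + 1) := by field_simp
  -- bound for every `t`
  have hrange : ∀ t ∈ Ico t0 t1, (0 : ℝ) ≤ (t : ℝ) / M ∧ (t : ℝ) / M ≤ 1 ∧
      a * E ((t : ℝ) / M) (fun ω : Om n1 => ind (Good l c S ω)) ≤
        E ((t : ℝ) / M) (fun ω : Om n => ind (∃ ρ, Ev l c'' ω ρ)) := by
    intro t ht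
    rw [mem_Ico] at ht
    have h0 : (0 : ℝ) ≤ (t : ℝ) / M := by positivity
    have htt1 : (t : ℝ) ≤ t1 := by exact_mod_cast ht.2.le
    have htt0 : (t0 : ℝ) ≤ t := by exact_mod_cast ht.1
    have ht0R : ε * M / n1 ≤ t0 := Nat.le_ceil _
    have h1 : (t : ℝ) / M ≤ 1 / 2 := by
      rw [div_le_iff₀ hMR]
      have : (2 * t1 : ℝ) ≤ M := by exact_mod_cast ht1M
      linarith
    have h1' : (t : ℝ) / M ≤ 1 := by linarith
    have hp_lo : ε / n1 ≤ (t : ℝ) / M := by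
      rw [div_le_div_iff₀ hn1R hMR]
      have h3 : ε * M / n1 ≤ t := ht0R.trans htt0
      rw [div_le_iff₀ hn1R] at h3
      linarith
    have hp_hi : (t : ℝ) / M ≤ Λ / n1 := by
      rw [div_le_div_iff₀ hMR hn1R]
      have h3 : (t : ℝ) ≤ Λ * M / n1 := htt1.trans ht1R
      rw [le_div_iff₀ hn1R] at h3
      linarith
    have hnR1 : (n1 : ℝ) ≤ n := by exact_mod_cast hnn1
    have hnR2 : (n : ℝ) ≤ 2 * n1 := by
      have : n ≤ 2 * n1 := by omega
      exact_mod_cast this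
    refine ⟨h0, h1', ?_⟩
    have hstep := hq1 (S.card + e) hSe ((t : ℝ) / M) h0 (by
        calc ε = ε / n1 * n1 := by field_simp
          _ ≤ (t : ℝ) / M * n := mul_le_mul hp_lo hnR1 hn1R.le h0) (by
        calc (t : ℝ) / M * n ≤ Λ / n1 * (2 * n1) :=
              mul_le_mul hp_hi hnR2 (by positivity) (by positivity)
          _ = 2 * Λ := by field_simp) h1' (n1 + e) (ext e S) (card_ext S)
    refine le_trans ?_ hstep
    have hext := E_ext (e := e) hcomap ((t : ℝ) / M) h0 h1' l c c'' S hdens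
    have hk : κ ≤ (1 - (t : ℝ) / M) ^ (e * (n1 + e)) := by
      have k1 : (1 - (t : ℝ) / M) ^ (C * (2 * n1)) ≤ (1 - (t : ℝ) / M) ^ (e * (n1 + e)) := by
        refine pow_le_pow_of_le_one (by linarith) (by linarith) ?_
        exact Nat.mul_le_mul heC (by omega)
      refine le_trans ?_ k1
      calc κ ≤ Real.exp (-(2 * ((t : ℝ) / M))) ^ (C * (2 * n1)) := by
            rw [← Real.exp_nat_mul, hκ]
            refine Real.exp_le_exp.mpr ?_
            push_cast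
            have k2 : (t : ℝ) / M * n1 ≤ Λ := by
              calc (t : ℝ) / M * n1 ≤ Λ / n1 * n1 := by gcongr
                _ = Λ := by field_simp
            have k3 : (0 : ℝ) ≤ C := by positivity
            have k4 := mul_le_mul_of_nonneg_left k2 k3
            nlinarith
        _ ≤ _ := pow_le_pow_left₀ (Real.exp_pos _).le (exp_aux _ h0 h1) _
    have hEn : 0 ≤ E ((t : ℝ) / M) (fun ω : Om n1 => ind (Good l c S ω)) :=
      E_nonneg h0 h1' (fun _ => ind_nonneg _)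
    calc a * E ((t : ℝ) / M) (fun ω : Om n1 => ind (Good l c S ω))
        = a0 * (κ * E ((t : ℝ) / M) (fun ω : Om n1 => ind (Good l c S ω))) := by
          rw [ha']; ring
      _ ≤ a0 * ((1 - (t : ℝ) / M) ^ (e * (n1 + e)) *
            E ((t : ℝ) / M) (fun ω : Om n1 => ind (Good l c S ω))) := by gcongr
      _ ≤ _ := by gcongr
  have hnpos : 0 < n := by omega
  have hnR : (0 : ℝ) < n := by exact_mod_cast hnpos
  have hvis := hvisit n M t1 a0 (fun ω => ∃ ρ, Ev l c'' ω ρ) hnpos hnM ht1M ha0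
    (by
      rintro ω ⟨ρ, hρ⟩
      exact (hq2 ω ρ hρ).2)
  -- the time sum
  have hS1 : a * (∑ t ∈ Ico t0 t1, E ((t : ℝ) / M)
      (fun ω : Om n1 => ind (Good l c S ω))) ≤
      ∑ t ∈ range t1, E ((t : ℝ) / M) (fun ω : Om n => ind (∃ ρ, Ev l c'' ω ρ)) := by
    rw [mul_sum]
    calc ∑ t ∈ Ico t0 t1, a * E ((t : ℝ) / M)
          (fun ω : Om n1 => ind (Good l c S ω))
        ≤ ∑ t ∈ Ico t0 t1, E ((t : ℝ) / M) (fun ω : Om n => ind (∃ ρ, Ev l c'' ω ρ)) :=
          sum_le_sum (fun t ht => (hrange t ht).2.2)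
      _ ≤ ∑ t ∈ range t1, E ((t : ℝ) / M) (fun ω : Om n => ind (∃ ρ, Ev l c'' ω ρ)) := by
          refine sum_le_sum_of_subset_of_nonneg ?_ ?_
          · intro t ht
            rw [mem_Ico] at ht
            exact mem_range.2 ht.2
          · intro t ht _
            rw [mem_range] at ht
            have h0 : (0 : ℝ) ≤ (t : ℝ) / M := by positivity
            have h1 : (t : ℝ) / M ≤ 1 := by
              rw [div_le_one hMR]
              exact_mod_cast (by omega : t ≤ M)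
            exact E_nonneg h0 h1 (fun _ => ind_nonneg _)
  set SS1 := ∑ t ∈ Ico t0 t1, E ((t : ℝ) / M)
      (fun ω : Om n1 => ind (Good l c S ω)) with hSS1
  set SS2 := ∑ t ∈ range t1, E ((t : ℝ) / M) (fun ω : Om n => ind (∃ ρ, Ev l c'' ω ρ)) with hSS2
  have hnn1R : (n1 : ℝ) ≤ n := by exact_mod_cast hnn1
  have hSS1nn : 0 ≤ SS1 := by
    have h3 : (0 : ℝ) < (n1 : ℝ) ^ 2 := by positivity
    have h4 : 0 ≤ (n1 : ℝ) ^ 2 * SS1 := le_trans (by positivity) hsum
    exact nonneg_of_mul_nonneg_right h4 h3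
  have hS2 : a * c' ≤ (n : ℝ) ^ 2 / M * SS2 := by
    have h1 : a * (c' * M) ≤ a * ((n : ℝ) ^ 2 * SS1) := by
      refine mul_le_mul_of_nonneg_left ?_ ha.le
      refine hsum.trans (mul_le_mul_of_nonneg_right ?_ hSS1nn)
      exact pow_le_pow_left₀ hn1R.le hnn1R 2
    have h2 : a * ((n : ℝ) ^ 2 * SS1) ≤ (n : ℝ) ^ 2 * SS2 := by
      calc a * ((n : ℝ) ^ 2 * SS1) = (n : ℝ) ^ 2 * (a * SS1) := by ring
        _ ≤ (n : ℝ) ^ 2 * SS2 := mul_le_mul_of_nonneg_left hS1 (by positivity)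
    calc a * c' = a * (c' * M) / M := by field_simp
      _ ≤ ((n : ℝ) ^ 2 * SS2) / M := div_le_div_of_nonneg_right (h1.trans h2) hMR.le
      _ = (n : ℝ) ^ 2 / M * SS2 := by ring
  refine ⟨M, hMpos, ?_⟩
  have hden : (0 : ℝ) < (M : ℝ) ^ Fintype.card (Sym2 (Fin n)) := by positivity
  have hfin : (∑ T : Lab n M, ind (∃ t, t < t1 ∧ ∃ ρ, Ev l c'' (op t T) ρ)) /
        (M : ℝ) ^ Fintype.card (Sym2 (Fin n)) ≤
      (∑ T : Lab n M, ind (∃ t : ℕ, Bad3 (op t T))) /
        (M : ℝ) ^ Fintype.card (Sym2 (Fin n)) := by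
    refine div_le_div_of_nonneg_right (sum_le_sum (fun T _ => ind_mono ?_)) hden.le
    rintro ⟨t, _, ρ, hρ⟩
    exact ⟨t, (hq2 _ ρ hρ).1⟩
  refine le_trans ?_ (hvis.trans hfin)
  have hinv : 1 / (n : ℝ) ≤ a0 / 8 * (a * c') := by
    have hpos : 0 < a0 / 8 * (a * c') := by positivity
    have h1 : 1 / (a0 / 8 * (a * c')) ≤ n := hK2.trans hK2'
    rw [div_le_iff₀ hpos] at h1
    rw [div_le_iff₀ hnR]
    linarith
  have hmain : a0 / 4 * (a * c') ≤ a0 / 4 * ((n : ℝ) ^ 2 / M) * SS2 := by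
    have h9 := mul_le_mul_of_nonneg_left hS2 (show 0 ≤ a0 / 4 by positivity)
    calc a0 / 4 * (a * c') ≤ a0 / 4 * ((n : ℝ) ^ 2 / M * SS2) := h9
      _ = _ := by ring
  have : a0 / 8 * (a * c') = a0 / 4 * (a * c') - a0 / 8 * (a * c') := by ring
  rw [this]
  linarith

/-- all the steps, assembled -/
theorem label_bad_all : ∃ γ : ℝ, 0 < γ ∧ ∃ N0 : ℕ, ∀ n ≥ N0, ∃ M : ℕ, 0 < M ∧
      γ ≤ (∑ T : Lab n M, ind (∃ t : ℕ, Bad3 (op t T))) /
        (M : ℝ) ^ Fintype.card (Sym2 (Fin n)) := by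
  have hcond := S_cond_thm
  have hincl := S_incl_thm
  have hcomap := CM_thm.1
  have hlabel := CM_thm.2
  have hkill := KI_thm hlabel
  have hvisit := VI_thm hlabel
  have hkilllow := KL_thm hlabel
  have hE1 := S_E1_thm hincl
  have hstep := S_step_thm hE1 hincl
  have hsmall := S_small_thm hcond
  have hlarge := S_large_thm
  have hA := AA_thm hstep hsmall hlarge
  have hkappa : S_kappa := kappa_of hE1 hlarge hA
  have hearly := EA_thm hincl
  have hlate := LA_thm hcond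
  have halpha := AL_thm hsmall hlarge hA hkill hkilllow hearly hlate
  have hgood := GO_thm halpha hkappa hkill
  have hsuper := SU_thm
  have hcount := CN_thm hsuper
  have hpp := PP_thm hcond hcount
  have hplant := PL_thm hcomap hpp MU_thm
  exact label_bad' hgood hplant GA_thm hvisit hcomap

end Pool.Agent.LC76
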