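import Mathlib
import Pool.Graph.R_seed8.H624C.MA
import Pool.Graph.R_seed8.H624C.CO
import Pool.Graph.R_seed8.H624C.CM
import Pool.Graph.R_seed8.H624C.KI
import Pool.Graph.R_seed8.H624C.VI
import Pool.Graph.R_seed8.H624C.KL
import Pool.Graph.R_seed8.H624C.E1
import Pool.Graph.R_seed8.H624C.ST
import Pool.Graph.R_seed8.H624C.SM
import Pool.Graph.R_seed8.H624C.AA
import Pool.Graph.R_seed8.H624C.KA
import Pool.Graph.R_seed8.H624C.AL
import Pool.Graph.R_seed8.H624C.GO
import Pool.Graph.R_seed8.H624C.SU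
import Pool.Graph.R_seed8.H624C.CN
import Pool.Graph.R_seed8.H624C.GA
import Pool.Graph.R_seed8.H624C.PP
import Pool.Graph.R_seed8.H624C.MU
import Pool.Graph.R_seed8.H624C.PL
import Pool.Graph.R_seed8.H624C.EA
import Pool.Graph.R_seed8.H624C.LA
import Pool.Graph.R_seed8.H624C.TR

set_option autoImplicit false

namespace Pool.Agent.LC76

open Finset Pool.Agent.H624C
open scoped Classical

variable {n1 e : ℕ}

/-- add `e` extra vertices -/
noncomputable def ext (e : ℕ) (S : Finset (Fin n1)) : Finset (Fin (n1 + e)) :=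
  S.image (Fin.castAdd e) ∪ univ.filter (fun x => n1 ≤ x.val)

theorem mem_ext (S : Finset (Fin n1)) (x : Fin n1) :
    Fin.castAdd e x ∈ ext e S ↔ x ∈ S := by
  unfold ext
  rw [mem_union, mem_image, mem_filter]
  constructor
  · rintro (⟨y, hy, h⟩ | ⟨_, h⟩)
    · have := Fin.castAdd_injective n1 e h
      rwa [← this]
    · exfalso
      have := x.2
      simp only [Fin.val_castAdd] at h
      omega
  · intro h
    exact Or.inl ⟨x, h, rfl⟩

theorem mem_ext_nat (S : Finset (Fin n1)) (x : Fin e) : Fin.natAdd n1 x ∈ ext e S := by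
  unfold ext
  rw [mem_union, mem_filter]
  right
  simp

theorem card_ext (S : Finset (Fin n1)) : (ext e S).card = S.card + e := by
  unfold ext
  rw [card_union_of_disjoint, card_image_of_injective _ (Fin.castAdd_injective n1 e)]
  · congr 1
    have h : (univ.filter (fun x : Fin (n1 + e) => n1 ≤ x.val)) =
        (univ : Finset (Fin e)).image (Fin.natAdd n1) := by
      ext x
      simp only [mem_filter, mem_univ, true_and, mem_image]
      constructor
      · intro h
        refine ⟨⟨x.val - n1, by omega⟩, ?_⟩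
        apply Fin.ext
        simp only [Fin.val_natAdd]
        omega
      · rintro ⟨y, rfl⟩
        simp
    rw [h, card_image_of_injective _ (Fin.natAdd_injective e n1), card_univ, Fintype.card_fin]
  · rw [disjoint_left]
    rintro x h1 h2
    obtain ⟨y, _, rfl⟩ := mem_image.mp h1
    rw [mem_filter] at h2
    have := y.2
    have h3 := h2.2
    simp only [Fin.val_castAdd] at h3
    omega

/-- the extra vertices are isolated -/
def Iso (ω : Om (n1 + e)) : Prop :=
  ∀ (x : Fin e) (y : Fin (n1 + e)), s(Fin.natAdd n1 x, y) ∉ ω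

theorem mem_pull (ω : Om (n1 + e)) (a b : Fin n1) :
    s(a, b) ∈ pull (Fin.castAdd e) ω ↔ s(Fin.castAdd e a, Fin.castAdd e b) ∈ ω := by
  unfold pull
  simp

theorem sol_iff {ω : Om (n1 + e)} (h : Iso ω) (S : Finset (Fin n1)) (σ : Col (n1 + e)) :
    σ ∈ Sol Set.univ (ext e S) ω ↔
      (fun x => σ (Fin.castAdd e x)) ∈ Sol Set.univ S (pull (Fin.castAdd e) ω) := by
  constructor
  · rintro ⟨h1, _⟩
    refine ⟨fun a ha b hb hab hm => ?_, trivial⟩
    rw [mem_pull] at hm
    exact h1 _ ((mem_ext S a).2 ha) _ ((mem_ext S b).2 hb)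
      (fun hc => hab (Fin.castAdd_injective n1 e hc)) hm
  · rintro ⟨h1, _⟩
    refine ⟨fun a ha b hb hab hm => ?_, trivial⟩
    induction a using Fin.addCases with
    | right x => exact absurd hm (h x b)
    | left a =>
      induction b using Fin.addCases with
      | right x => exact absurd (by rwa [Sym2.eq_swap] at hm) (h x _)
      | left b =>
        exact h1 a ((mem_ext S a).1 ha) b ((mem_ext S b).1 hb)
          (fun hc => hab (by rw [hc])) ((mem_pull ω a b).2 hm)

theorem cov_iff {ω : Om (n1 + e)} (h : Iso ω) (S Y : Finset (Fin n1)) :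
    Cov Set.univ (ext e S) ω (Y.image (Fin.castAdd e)) ↔
      Cov Set.univ S (pull (Fin.castAdd e) ω) Y := by
  constructor
  · intro hc τ hτ s
    have hσ : (Fin.addCases τ (fun _ => 0) : Col (n1 + e)) ∈ Sol Set.univ (ext e S) ω := by
      rw [sol_iff h]
      convert hτ using 2
      simp
    obtain ⟨y, hy, hs⟩ := hc _ hσ s
    obtain ⟨z, hz, rfl⟩ := mem_image.mp hy
    refine ⟨z, hz, ?_⟩
    simpa using hs
  · intro hc σ hσ s
    obtain ⟨y, hy, hs⟩ := hc _ ((sol_iff h S σ).1 hσ) s
    exact ⟨_, mem_image_of_mem _ hy, hs⟩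

theorem prs_le {ω : Om (n1 + e)} (h : Iso ω) (l : ℕ) (S : Finset (Fin n1)) :
    prs l S (pull (Fin.castAdd e) ω) ≤ prs l (ext e S) ω := by
  unfold prs
  refine card_le_card_of_injOn
    (fun q => (fun i => Fin.castAdd e (q.1 i), Fin.castAdd e q.2)) ?_ ?_
  · rintro ⟨w, z⟩ hq
    simp only [coe_filter, mem_univ, true_and, Set.mem_ofPred_eq] at hq ⊢
    obtain ⟨h1, h2, h3, h4⟩ := hq
    have e1 : (univ : Finset (Fin l)).image (fun i => Fin.castAdd e (w i)) =
        (univ.image w).image (Fin.castAdd e) := by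
      rw [image_image]; rfl
    refine ⟨fun i => (mem_ext S _).2 (h1 i), (mem_ext S _).2 h2, ?_, ?_⟩
    · rw [e1, cov_iff h]; exact h3
    · rw [e1, ← image_insert, cov_iff h]; exact h4
  · rintro ⟨w, z⟩ _ ⟨w', z'⟩ _ hq
    simp only [Prod.mk.injEq] at hq
    obtain ⟨h1, h2⟩ := hq
    refine Prod.ext ?_ ?_
    · funext i
      exact Fin.castAdd_injective n1 e (congrFun h1 i)
    · exact Fin.castAdd_injective n1 e h2

theorem good_ext {ω : Om (n1 + e)} (h : Iso ω) (l : ℕ) (c c'' : ℝ) (S : Finset (Fin n1))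
    (hc : c'' * ((S.card : ℝ) + e) ^ (l + 1) ≤ c * (S.card : ℝ) ^ (l + 1))
    (hg : Good l c S (pull (Fin.castAdd e) ω)) : Good l c'' (ext e S) ω := by
  unfold Good at hg ⊢
  rw [card_ext]
  push_cast
  refine hc.trans (hg.trans ?_)
  exact_mod_cast prs_le h l S

/-- pairs touching an extra vertex -/
noncomputable def BB (n1 e : ℕ) : Om (n1 + e) :=
  (univ ×ˢ univ : Finset (Fin e × Fin (n1 + e))).image (fun q => s(Fin.natAdd n1 q.1, q.2))

theorem card_BB : (BB n1 e).card ≤ e * (n1 + e) := by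
  unfold BB
  refine card_image_le.trans ?_
  rw [card_product, card_univ, card_univ, Fintype.card_fin, Fintype.card_fin]

theorem pull_sdiff (ω : Om (n1 + e)) :
    pull (Fin.castAdd e) (ω \ BB n1 e) = pull (Fin.castAdd e) ω := by
  unfold pull
  refine filter_congr fun z _ => ?_
  rw [mem_sdiff]
  refine ⟨fun h => h.1, fun h => ⟨h, ?_⟩⟩
  induction z using Sym2.ind with
  | _ a b =>
    intro hB
    unfold BB at hB
    obtain ⟨⟨x, y⟩, _, hxy⟩ := mem_image.mp hB
    rw [Sym2.map_mk] at hxy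
    have := Sym2.eq_iff.mp hxy
    rcases this with ⟨h1, _⟩ | ⟨h1, _⟩
    · have h2 := congrArg Fin.val h1
      simp only [Fin.val_natAdd, Fin.val_castAdd] at h2
      have := a.2; omega
    · have h2 := congrArg Fin.val h1
      simp only [Fin.val_natAdd, Fin.val_castAdd] at h2
      have := b.2; omega

theorem iso_of_inter {ω : Om (n1 + e)} (h : ω ∩ BB n1 e = ∅) : Iso ω := by
  intro x y hm
  have : s(Fin.natAdd n1 x, y) ∈ ω ∩ BB n1 e := by
    rw [mem_inter]
    exact ⟨hm, mem_image.mpr ⟨(x, y), by simp, rfl⟩⟩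
  rw [h] at this
  exact absurd this (notMem_empty _)

theorem E_ext (hcomap : S_comap) (p : ℝ) (h0 : 0 ≤ p) (h1 : p ≤ 1) (l : ℕ) (c c'' : ℝ)
    (S : Finset (Fin n1))
    (hc : c'' * ((S.card : ℝ) + e) ^ (l + 1) ≤ c * (S.card : ℝ) ^ (l + 1)) :
    (1 - p) ^ (e * (n1 + e)) * E p (fun ω : Om n1 => ind (Good l c S ω)) ≤
      E p (fun ω : Om (n1 + e) => ind (Good l c'' (ext e S) ω)) := by
  have hf : ∀ ω : Om (n1 + e), (fun ω => ind (Good l c S (pull (Fin.castAdd e) ω))) ω =
      (fun ω => ind (Good l c S (pull (Fin.castAdd e) ω))) (ω \ BB n1 e) := by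
    intro ω
    simp only [pull_sdiff]
  have h2 := S_cond_thm (n1 + e) p (BB n1 e) ∅
    (fun ω => ind (Good l c S (pull (Fin.castAdd e) ω))) (empty_subset _) hf
  rw [hcomap n1 (n1 + e) p (Fin.castAdd e) (Fin.castAdd_injective n1 e)
    (fun ω => ind (Good l c S ω))] at h2
  rw [card_empty, pow_zero, one_mul, Nat.sub_zero] at h2
  have hE : 0 ≤ E p (fun ω : Om n1 => ind (Good l c S ω)) :=
    E_nonneg h0 h1 (fun _ => ind_nonneg _)
  calc (1 - p) ^ (e * (n1 + e)) * E p (fun ω : Om n1 => ind (Good l c S ω))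
      ≤ (1 - p) ^ (BB n1 e).card * E p (fun ω : Om n1 => ind (Good l c S ω)) := by
        refine mul_le_mul_of_nonneg_right ?_ hE
        exact pow_le_pow_of_le_one (by linarith) (by linarith) card_BB
    _ = E p (fun ω => ind (ω ∩ BB n1 e = ∅) *
          ind (Good l c S (pull (Fin.castAdd e) ω))) := h2.symm
    _ ≤ _ := by
        refine E_mono h0 h1 fun ω => ?_
        rw [← ind_and]
        refine ind_mono ?_
        rintro ⟨ha, hb⟩
        exact good_ext (iso_of_inter ha) l c c'' S hc hb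

end Pool.Agent.LC76
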